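import Pool.Agent.MP_54ec50_nt.Mg.Mod3

/-! The congruences modulo 4 and 8. -/

namespace Pool.Agent.MP_54ec50_nt

open PowerSeries Finset

def h2 : List ℕ := [1, 0, 0, 0, 0, 1]
def rv : RF := ([0, 0, 1, 0, 0, 0, 0, 6, 0, 0, 0, 0, 8, 0, 0, 0, 0, 10, 0, 0, 0, 0, 15], 4)
def w2 : RF := ([1, 0, 0, 0, 0, 8, 0, 0, 0, 0, 5, 0, 0, 0, 0, 1, 0, 0, 0, 0, 14, 0, 0, 0, 0, 15], 5)
def tau : RF := ([0, 0, 0, 0, 0, 1, 0, 0, 0, 0, 1, 0, 0, 0, 0, 1, 0, 0, 0, 0, 1, 0, 0, 0, 0, 0, 0, 0, 0, 0,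
    0, 0, 0, 0, 0, 0, 0, 0, 0, 0, 1], 9)
def rx : RF := ([0, 1], 0)
def r1 : RF := ([1], 0)

lemma h2_unit : IsUnit (ev xx h2) := ev_unit X_dvd_xx _

lemma rep_v : Rep 16 h2 vv rv := by
  refine Rep.of_md ?_ (Rep.val h2_unit _)
  have hv := Rep.val (m := 16) h2_unit rv
  have h1 := Rep.eq (by norm_num) h2_unit
    (((hv.pow 2).mul (Rep.var.pow 3)).lin 1 ((Rep.var.pow 2).lin 1 ((hv.pow 3).mul Rep.var))) hv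
    (by decide +kernel)
  generalize val h2 rv = w at h1
  apply Md.cancel (c := 1 + xx * (-(vv + w) * xx ^ 2 - (vv ^ 2 + vv * w + w ^ 2))) _
    (isUnit_of_cg (cg_one_add (X_dvd_xx.mul_right _)))
  obtain ⟨z, hz⟩ := h1
  refine ⟨z, ?_⟩
  push_cast at hz ⊢
  linear_combination hz - Phi

def rk : RF := rmul 16 rx (rpow 16 rv 2)
def ral : RF := rlin 16 h2 15 (rpow 16 rk 2) (rlin 16 h2 1 rk r1)
def rbe : RF := rlin 16 h2 15 (rpow 16 rk 2) (rlin 16 h2 12 rk r1)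

lemma rep_k : Rep 16 h2 (xx * vv ^ 2) rk := Rep.var.mul (rep_v.pow 2)

lemma rep_al : Rep 16 h2 al ral :=
  Rep.of_md ⟨-(xx * vv ^ 2) ^ 2, by unfold al; push_cast; ring⟩
    ((rep_k.pow 2).lin 15 (rep_k.lin 1 Rep.one))

lemma rep_be : Rep 16 h2 be rbe :=
  Rep.of_md ⟨-(xx * vv ^ 2) ^ 2 - xx * vv ^ 2, by unfold be; push_cast; ring⟩
    ((rep_k.pow 2).lin 15 (rep_k.lin 12 Rep.one))

lemma W16 : Md 16 (val h2 w2 * al * ((8 : ℕ) * val h2 tau + 1)) (be * E 2 (val h2 w2)) :=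
  Rep.eqE (by norm_num) h2_unit h2_unit rep_v
    (((Rep.val h2_unit w2).mul rep_al).mul ((Rep.val h2_unit tau).lin 8 Rep.one)) rep_be
    (by decide +kernel)

lemma md_half {a b : ℤ⟦X⟧} (h : Md 16 (8 * a) (8 * b)) : Md 2 a b := by
  obtain ⟨z, hz⟩ := h
  refine ⟨z, mul_left_cancel₀ (pow_ne_zero 3 two_ne) ?_⟩
  push_cast at hz ⊢
  linear_combination hz

lemma md_double {a b : ℤ⟦X⟧} (h : Md 2 a b) : Md 16 (8 * a) (8 * b) := by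
  obtain ⟨z, hz⟩ := h
  refine ⟨z, ?_⟩
  push_cast at hz ⊢
  linear_combination 8 * hz

lemma W_struct : ∃ o, Md 16 WW ((1 + 8 * (val h2 tau + val h2 tau ^ 2 + E 2 (E 2 o))) *
    val h2 w2) := by
  have hc : Cg 1 (val h2 w2) 1 := val_cg _ _ _
  obtain ⟨Y, y1, y2, y3⟩ := Y_eq hc
  have y4 : Md 16 Y (E 2 Y * ((8 : ℕ) * val h2 tau + 1)) := by
    apply Md.cancel (c := val h2 w2 * al) _ ((isUnit_of_cg hc).mul al_unit)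
    exact ((Md.of_eq y3).trans ((Md.refl _).mul W16.symm)).trans (Md.of_eq (by ring))
  have y5 : Md 8 Y (E 2 Y) :=
    (y4.mono (by norm_num)).trans ⟨E 2 Y * val h2 tau, by ring⟩
  obtain ⟨o, ho⟩ := md_fix y5 y1
  have y6 : Y = 1 + 8 * o := by push_cast at ho; linear_combination ho
  have y7 : Md 2 o (val h2 tau + E 2 o) := by
    apply md_half
    rw [y6, map_add, map_mul, map_one, map_ofNat] at y4
    obtain ⟨z, hz⟩ := y4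
    refine ⟨z + 4 * E 2 o * val h2 tau, ?_⟩
    push_cast at hz ⊢
    linear_combination hz
  have y8 := y7.E 2
  rw [map_add] at y8
  have y9 := y7.trans ((Md.refl _).add (y8.trans ((frob 2 _).add (Md.refl _))))
  refine ⟨o, ?_⟩
  rw [y2, y6, add_assoc (val h2 tau)]
  exact ((Md.refl 1).add (md_double y9)).mul (Md.refl _)

lemma rep_W8 : Rep 8 h2 WW w2 := by
  obtain ⟨o, ho⟩ := W_struct
  refine Rep.of_md ((ho.mono (by norm_num)).trans ?_) (Rep.val h2_unit _)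
  exact ⟨(val h2 tau + val h2 tau ^ 2 + E 2 (E 2 o)) * val h2 w2, by push_cast; ring⟩

def rv8 : RF := ([0, 0, 1, 0, 0, 0, 0, 4, 0, 0, 0, 0, 7], 2)

lemma rep_v8 : Rep 8 h2 vv rv8 :=
  Rep.of_md (Rep.eq (by norm_num) h2_unit (rep_v.mono (by norm_num)) (Rep.val h2_unit rv8)
    (by decide +kernel)) (Rep.val h2_unit rv8)

lemma Rep.unext {m : ℕ} {H d : List ℕ} {g : ℤ⟦X⟧} {r : RF} (h : Rep m (pmul m H d) g r) :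
    Rep m H (ev xx d ^ r.2 * g) r := by
  unfold Rep at *
  exact (Md.of_eq (by ring)).trans (((Md.refl g).mul ((ev_pmul xx _ _).pow _)).symm.trans h)

def rP (H : List ℕ) (w r : RF) : RF :=
  rlin 8 H 7 (rT 8 H w (rT 8 H w (rT 8 H w (rT 8 H w r)))) r

def chk2 (d : List ℕ) (r t : RF) : Bool :=
  req 8 h2 (rmul 8 (rpow 8 (rhor 8 h2 rv8 h2) t.2) (rP (pmul 8 h2 d) (rext 8 d w2) r))
    (rmul 8 (rpow 8 (d, 0) (rP (pmul 8 h2 d) (rext 8 d w2) r).2) (rhor 8 h2 rv8 t.1))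

lemma U2 {d : List ℕ} {r : RF} (t : RF) {G : ℤ⟦X⟧} (hd : IsUnit (ev xx d))
    (hG : Rep 8 (pmul 8 h2 d) G r) (hc : chk2 d r t = true)
    (n : ℕ) : (8 : ℤ) ∣ coeff (2 * n) G - coeff n (val h2 t) := by
  have p : 0 < 8 := by norm_num
  have hw := rep_W8.ext d
  have a0 := Rep.eqE p h2_unit h2_unit rep_v8
    (((((hG.T p hw).T p hw).T p hw).T p hw).lin 7 hG).unext ((Rep.poly d).pow _) hc
  rw [mul_comm, mul_comm (ev xx d ^ _)] at a0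
  have a1 := Md.iff_coeff.mp (a0.cancel (hd.pow _)) (2 * n)
  rw [coeff_E_mul, map_add, coeff_nat_mul, coeff_T, coeff_T, coeff_T, coeff_T] at a1
  obtain ⟨z, hz⟩ := a1
  push_cast at hz
  exact ⟨z - 14 * n ^ 4 * coeff (2 * n) G, by linear_combination hz⟩

lemma EE_mul (o t : ℤ⟦X⟧) (ht : ∀ n, (2 : ℤ) ∣ coeff (4 * n + 3) t) (n : ℕ) :
    (2 : ℤ) ∣ coeff (4 * n + 3) (E 2 (E 2 o) * t) := by
  rw [coeff_mul]
  refine dvd_sum fun ⟨i, j⟩ hij => ?_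
  simp only [HasAntidiagonal.mem_antidiagonal] at hij
  simp only [coeff_E]
  split_ifs with a1 a2
  · obtain ⟨k, rfl⟩ : ∃ k, j = 4 * k + 3 := ⟨j / 4, by omega⟩
    exact (ht k).mul_left _
  · simp
  · simp

lemma arith {a c d e u A B C D z3 z4 z5 z7 : ℤ} (k7 : 84 * u + 8 * A = 8 * z7)
    (k5 : 490 * e + 4 * B - 2 * u = 4 * z5) (k4 : 88 * c + 32 * C - 8 * e - 16 * d = 16 * z4)
    (k3 : 343 * a + 8 * D - 4 * c = 8 * z3) : 8 ∣ a := by omega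

lemma final (g gh ep y : RF)
    (c3 : req 8 h2 (rT 8 h2 w2 (rT 8 h2 w2 (rT 8 h2 w2 g))) gh = true)
    (c4 : req 16 h2 (rlin 16 h2 15 gh (rmul 16 (rlin 16 h2 8 (rlin 16 h2 1 tau (rpow 16 tau 2)) r1)
      (rT 16 h2 w2 gh))) (rlin 16 h2 8 ep ([], 0)) = true)
    (c5 : req 4 h2 (rT 4 h2 w2 (rT 4 h2 w2 (rlin 4 h2 3 ep (rT 4 h2 w2 ep))))
      (rlin 4 h2 2 y ([], 0)) = true)
    (c7 : req 8 h2 (rT 8 h2 w2 (rlin 8 h2 5 y (rT 8 h2 w2 y))) ([], 0) = true) (n : ℕ) :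
    (4 : ℤ) ∣ coeff (4 * n + 3) (val h2 g) ∧ (8 : ℤ) ∣ coeff (8 * n + 7) (val h2 g) := by
  have p : 0 < 8 := by norm_num
  have p4 : 0 < 4 := by norm_num
  have p16 : 0 < 16 := by norm_num
  have w8 := rep_W8
  have w4 : Rep 4 h2 WW w2 := rep_W8.mono (by norm_num)
  have V : ∀ m r, Rep m h2 (val h2 r) r := fun m r => Rep.val h2_unit r
  have a3 := Md.iff_coeff.mp (Rep.eq p h2_unit ((((V 8 g).T p w8).T p w8).T p w8) (V 8 gh) c3)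
  have a4 := Rep.eq p16 h2_unit ((V 16 gh).lin 15 ((((V 16 tau).lin 1 ((V 16 tau).pow 2)).lin 8
    Rep.one).mul ((V 16 w2).mul ((V 16 gh).D p16)))) ((V 16 ep).lin 8 Rep.zero) c4
  have a5 := Md.iff_coeff.mp (Rep.eq p4 h2_unit
    ((((V 4 ep).lin 3 ((V 4 ep).T p4 w4)).T p4 w4).T p4 w4) ((V 4 y).lin 2 Rep.zero) c5)
  have a7 := Md.iff_coeff.mp (Rep.eq p h2_unit
    (((V 8 y).lin 5 ((V 8 y).T p w8)).T p w8) Rep.zero c7)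
  obtain ⟨o, ho⟩ := W_struct
  obtain ⟨t, ht⟩ : ∃ t, t = val h2 w2 * Dx (val h2 gh) := ⟨_, rfl⟩
  rw [← ht] at a4
  have b1 : Md 16 ((15 : ℕ) * val h2 gh + T (val h2 gh))
      ((8 : ℕ) * val h2 ep + (8 : ℕ) * (E 2 (E 2 o) * t)) := by
    rw [T_eq]
    refine ((Md.refl _).add (ho.mul (Md.refl _))).trans ?_
    refine (Md.of_eq ?_).trans ((a4.add (Md.refl ((8 : ℕ) * (E 2 (E 2 o) * t)))).trans
      (Md.of_eq (by ring)))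
    rw [ht]; push_cast; ring
  have b2 : Md 8 (T (val h2 gh)) t := by
    rw [T_eq, ht]
    refine ((ho.mono (by norm_num)).trans ?_).mul (Md.refl _)
    exact ⟨(val h2 tau + val h2 tau ^ 2 + E 2 (E 2 o)) * val h2 w2, by push_cast; ring⟩
  rw [Md.iff_coeff] at b1 b2
  simp only [map_add, coeff_nat_mul, coeff_T, map_zero] at a3 a5 a7 b1 b2
  have q4 : ∀ n, (4 : ℤ) ∣ coeff (4 * n + 3) (val h2 gh) := by
    intro n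
    obtain ⟨z, hz⟩ := b1 (4 * n + 3)
    push_cast at hz
    generalize coeff (4 * n + 3) (val h2 gh) = a at hz
    have e : (4 * (n : ℤ) + 3) * a = 4 * (n * a) + 3 * a := by ring
    rw [e] at hz
    obtain ⟨c, rfl⟩ : 2 ∣ a := by omega
    have e2 : (n : ℤ) * (2 * c) = 2 * (n * c) := by ring
    rw [e2] at hz
    omega
  have qt : ∀ n, (2 : ℤ) ∣ coeff (4 * n + 3) t := by
    intro n
    obtain ⟨c, hc⟩ := q4 n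
    obtain ⟨z, hz⟩ := b2 (4 * n + 3)
    rw [hc] at hz
    exact ⟨(4 * n + 3 : ℕ) * 2 * c - 4 * z, by push_cast at hz ⊢; linear_combination -hz⟩
  constructor
  · obtain ⟨c, hc⟩ := q4 n
    obtain ⟨z, hz⟩ := a3 (4 * n + 3)
    rw [hc] at hz
    push_cast at hz
    exact ⟨(16 * n ^ 3 + 36 * n ^ 2 + 27 * n + 7) * coeff (4 * n + 3) (val h2 g) - c - 2 * z,
      by linear_combination -hz⟩
  · obtain ⟨c, hc⟩ := q4 (2 * n + 1)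
    obtain ⟨d, hd⟩ := EE_mul o t qt (2 * n + 1)
    rw [show 4 * (2 * n + 1) + 3 = 8 * n + 7 by ring] at hc hd
    obtain ⟨z3, h3⟩ := a3 (8 * n + 7)
    obtain ⟨z4, h4⟩ := b1 (8 * n + 7)
    obtain ⟨z5, h5⟩ := a5 (8 * n + 7)
    obtain ⟨z7, h7⟩ := a7 (8 * n + 7)
    rw [hc] at h3 h4
    rw [hd] at h4
    push_cast at h3 h4 h5 h7
    generalize coeff (8 * n + 7) (val h2 g) = a at *
    generalize coeff (8 * n + 7) (val h2 ep) = e at *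
    generalize coeff (8 * n + 7) (val h2 y) = u at *
    have k7 : 84 * u + 8 * ((8 * n ^ 2 + 19 * n) * u) = 8 * z7 := by linear_combination h7
    have k5 : 490 * e + 4 * ((128 * n ^ 3 + 384 * n ^ 2 + 378 * n) * e) - 2 * u = 4 * z5 := by
      linear_combination h5
    have k4 : 88 * c + 32 * (n * c) - 8 * e - 16 * d = 16 * z4 := by linear_combination h4
    have k3 : 343 * a + 8 * ((64 * n ^ 3 + 168 * n ^ 2 + 147 * n) * a) - 4 * c = 8 * z3 := by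
      linear_combination h3
    exact arith k7 k5 k4 k3

lemma chain2 {G : ℤ⟦X⟧} (nn dd : List ℕ) (g1 g2 : RF) (hG : Md 8 (G * ev xx dd) (ev xx nn))
    (hd : IsUnit (ev xx dd)) (c1 : chk2 dd (pmul 8 h2 nn, 1) g1 = true)
    (c2 : chk2 [1] (rext 8 [1] g1) g2 = true)
    (h : ∀ n, (4 : ℤ) ∣ coeff (4 * n + 3) (val h2 g2) ∧ (8 : ℤ) ∣ coeff (8 * n + 7) (val h2 g2))
    (n : ℕ) : (4 : ℤ) ∣ coeff (16 * n + 12) G ∧ (8 : ℤ) ∣ coeff (32 * n + 28) G := by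
  have a1 := U2 g1 hd (rep_frac h2 hG) c1
  have a2 := U2 g2 (ev_unit X_dvd_xx []) ((Rep.val h2_unit g1).ext [1]) c2
  have b1 := a1 (2 * (4 * n + 3))
  have b2 := a2 (4 * n + 3)
  have b3 := a1 (2 * (8 * n + 7))
  have b4 := a2 (8 * n + 7)
  have b5 := h n
  rw [show 16 * n + 12 = 2 * (2 * (4 * n + 3)) by ring,
    show 32 * n + 28 = 2 * (2 * (8 * n + 7)) by ring]
  omega

def C1 : RF := ([1, 7, 0, 5, 6, 6, 7, 2, 3, 2, 6, 5, 0, 3, 2, 2, 1, 6, 1, 6, 1], 4)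
def C2 : RF := ([1, 0, 6, 4, 0, 2, 2, 4, 5, 3, 2, 0, 6, 2, 2, 6, 2, 0, 1, 7, 1], 4)
def Ch : RF := ([0, 0, 0, 4, 0, 6, 0, 0, 4, 3, 2, 4, 0, 2, 1, 4, 4, 4, 2, 0, 2, 0, 4, 0, 7, 0, 4, 0, 6, 6,
    2, 4, 4, 6, 1, 4, 0, 4, 0, 4, 2, 0, 0, 0, 7, 2, 0, 0, 0, 7], 10)
def Ce : RF := ([0, 0, 0, 1, 0, 1, 0, 0, 1, 1, 0, 1, 0, 0, 0, 0, 1, 0, 1, 0, 1, 1, 1, 0, 1, 0, 0, 0, 0, 0,
    0, 0, 0, 1, 0, 0, 1, 0, 0, 0, 0, 1, 1, 1, 1, 1, 0, 0, 1, 1, 1, 0, 0, 0, 1, 0, 1, 0, 1, 0, 1,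
    1, 1, 0, 1, 1, 0, 0, 0, 0, 0, 0, 0, 1, 1, 0, 1, 0, 0, 0, 0, 1, 1, 0, 0, 0, 0, 0, 0, 1, 1, 1,
    0, 0, 1, 0, 0, 0, 0, 1, 0, 0, 0, 0, 1, 1], 22)
def Cy : RF := ([0, 0, 0, 1, 0, 0, 0, 0, 3, 0, 0, 1, 0, 0, 0, 0, 3, 0, 3, 0, 0, 0, 0, 2, 0, 0, 3, 0, 1, 0,
    0, 2, 0, 3, 0, 0, 1, 0, 2, 0, 0, 3, 0, 0, 0, 0, 2, 0, 2, 0, 0, 3, 0, 2, 0, 0, 3, 0, 0, 0, 0,
    2, 0, 2, 0, 0, 1, 0, 2, 0, 0, 0, 0, 0, 0, 0, 1, 0, 2, 0, 0, 1, 0, 3, 0, 0, 0, 0, 3, 0, 0, 1,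
    0, 2, 0, 0, 3, 0, 1, 1, 0, 0, 0, 0, 3, 0, 3, 0, 1, 0, 0, 2, 0, 1, 3, 0, 1, 0, 0, 2, 0, 3, 0,
    0, 1, 0, 2, 0, 0, 3, 0, 3, 0, 0, 2, 0, 3, 0, 0, 3, 0, 2, 0, 0, 3, 0, 1, 0, 0, 2, 0, 0, 0, 0,
    1, 0, 1, 0, 0, 0, 0, 1, 0, 0, 1, 0, 0, 0, 0, 1], 36)

lemma C_c1 : chk2 Dl (pmul 8 h2 Nl, 1) C1 = true := by decide +kernel

lemma C_c2 : chk2 [1] (rext 8 [1] C1) C2 = true := by decide +kernel

theorem CC_mod8 (n : ℕ) :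
    (4 : ℤ) ∣ coeff (16 * n + 12) CC ∧ (8 : ℤ) ∣ coeff (32 * n + 28) CC :=
  chain2 Nl Dl C1 C2 (CC_md.mono (by norm_num)) (ev_unit X_dvd_xx _)
    C_c1 C_c2 (final C2 Ch Ce Cy (by decide +kernel) (by decide +kernel)
      (by decide +kernel) (by decide +kernel)) n

def D1 : RF := ([1, 2, 1, 2, 1, 6, 2, 5, 0, 3, 6, 6, 3, 6, 7, 2, 6, 3, 0, 1, 1], 4)
def D2 : RF := ([1, 1, 1, 0, 2, 2, 2, 6, 6, 0, 2, 5, 5, 4, 2, 6, 0, 4, 6, 0, 1], 4)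
def Dh : RF := ([0, 1, 0, 0, 0, 6, 3, 0, 0, 0, 2, 0, 0, 4, 0, 4, 5, 2, 4, 4, 2, 2, 6, 0, 4, 0, 3, 0, 4, 0,
    2, 4, 2, 4, 4, 4, 5, 6, 0, 4, 2, 5, 4, 0, 0, 2, 0, 4], 10)
def De : RF := ([0, 0, 0, 0, 0, 1, 1, 0, 0, 0, 0, 1, 0, 0, 0, 0, 0, 0, 1, 1, 1, 1, 0, 0, 1, 0, 0, 0, 0, 1,
    0, 0, 1, 0, 0, 0, 0, 1, 1, 0, 0, 1, 1, 0, 1, 1, 1, 0, 0, 1, 1, 0, 0, 0, 0, 0, 0, 0, 1, 0, 1,
    0, 0, 0, 1, 1, 1, 1, 0, 1, 0, 0, 1, 0, 0, 0, 1, 1, 1, 0, 0, 0, 1, 0, 1, 0, 0, 0, 0, 1, 1, 0,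
    0, 0, 0, 0, 1, 0, 0, 1, 0, 1, 0, 0, 0, 1, 0, 1], 22)
def Dy : RF := ([0, 0, 0, 0, 0, 0, 0, 0, 0, 0, 0, 1, 0, 0, 0, 0, 3, 0, 0, 1, 0, 0, 0, 0, 3, 0, 3, 0, 0, 0,
    0, 2, 0, 0, 3, 0, 1, 0, 0, 2, 0, 3, 0, 0, 1, 0, 2, 0, 0, 3, 0, 3, 0, 0, 2, 0, 3, 0, 0, 3, 0,
    2, 0, 0, 3, 0, 1, 1, 0, 2, 0, 0, 3, 0, 1, 0, 1, 0, 0, 0, 0, 1, 3, 0, 1, 0, 0, 2, 0, 1, 0, 0,
    1, 0, 0, 0, 0, 3, 0, 1, 0, 0, 2, 0, 3, 0, 0, 0, 0, 0, 0, 0, 2, 0, 3, 0, 0, 2, 0, 2, 0, 0, 0,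
    0, 1, 0, 0, 2, 0, 3, 0, 0, 2, 0, 2, 0, 0, 0, 0, 3, 0, 0, 2, 0, 3, 0, 0, 3, 0, 2, 0, 0, 3, 0,
    1, 0, 0, 2, 0, 0, 0, 0, 1, 0, 1, 0, 0, 0, 0, 1, 0, 0, 1, 0, 0, 0, 0, 1], 36)

lemma D_c1 : chk2 Nl (pmul 8 h2 Dl, 1) D1 = true := by decide +kernel

lemma D_c2 : chk2 [1] (rext 8 [1] D1) D2 = true := by decide +kernel

theorem DD_mod8 (n : ℕ) :
    (4 : ℤ) ∣ coeff (16 * n + 12) DD ∧ (8 : ℤ) ∣ coeff (32 * n + 28) DD :=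
  chain2 Dl Nl D1 D2 (DD_md.mono (by norm_num)) (ev_unit X_dvd_xx _)
    D_c1 D_c2 (final D2 Dh De Dy (by decide +kernel) (by decide +kernel)
      (by decide +kernel) (by decide +kernel)) n

end Pool.Agent.MP_54ec50_nt
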