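import Pool.Agent.MP_54ec50_nt.Ram

-- part MP_54ec50_nt.RF
section

/-! Rational functions of `x = q R(q^5)` modulo an integer, computed by reflection. -/

namespace Pool.Agent.MP_54ec50_nt

open PowerSeries Finset

/-- congruence modulo the integer `m` -/
def Md (m : ℕ) (a b : ℤ⟦X⟧) : Prop := (m : ℤ⟦X⟧) ∣ a - b

namespace Md
variable {m : ℕ} {a b c d : ℤ⟦X⟧}
lemma refl (a : ℤ⟦X⟧) : Md m a a := by simp [Md]
lemma of_eq (h : a = b) : Md m a b := h ▸ refl a
lemma symm (h : Md m a b) : Md m b a := by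
  unfold Md at *; rw [← neg_sub]; exact h.neg_right
lemma trans (h : Md m a b) (h' : Md m b c) : Md m a c := by
  unfold Md at *; have := h.add h'; rwa [sub_add_sub_cancel] at this
lemma add (h : Md m a b) (h' : Md m c d) : Md m (a + c) (b + d) := by
  unfold Md at *; have := h.add h'; rwa [show a - b + (c - d) = a + c - (b + d) by ring] at this
lemma mul (h : Md m a b) (h' : Md m c d) : Md m (a * c) (b * d) := by
  unfold Md at *
  have := (h.mul_right c).add (h'.mul_left b)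
  rwa [show (a - b) * c + b * (c - d) = a * c - b * d by ring] at this
lemma pow (h : Md m a b) (k : ℕ) : Md m (a ^ k) (b ^ k) := by
  induction k with
  | zero => simpa using refl _
  | succ k ih => rw [pow_succ, pow_succ]; exact ih.mul h
lemma mono {m' : ℕ} (h : Md m' a b) (hm : m ∣ m') : Md m a b :=
  (Nat.cast_dvd_cast hm).trans h
lemma cancel (h : Md m (a * c) (b * c)) (hc : IsUnit c) : Md m a b := by
  unfold Md at *
  rw [← sub_mul] at h
  exact (IsUnit.dvd_mul_right hc).mp h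
lemma iff_coeff : Md m a b ↔ ∀ n, (m : ℤ) ∣ coeff n a - coeff n b := by
  constructor
  · rintro ⟨z, hz⟩ n
    rw [← map_sub, hz, coeff_nat_mul]
    exact Dvd.intro _ rfl
  · intro h
    refine ⟨mk fun n => (coeff n a - coeff n b) / m, ?_⟩
    ext n
    rw [coeff_nat_mul, coeff_mk, Int.mul_ediv_cancel' (h n), map_sub]
lemma E (p : ℕ) [NeZero p] (h : Md m a b) : Md m (E p a) (E p b) := by
  obtain ⟨z, hz⟩ := h
  exact ⟨_, by rw [← map_sub, hz, map_mul, map_natCast]⟩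
lemma T (h : Md m a b) : Md m (T a) (T b) := by
  obtain ⟨z, hz⟩ := h
  exact ⟨_, by rw [← T_sub, hz, T_mul, T_nat, mul_zero, add_zero]⟩
lemma natMod (k : ℕ) : Md m ((k % m : ℕ) : ℤ⟦X⟧) k :=
  ⟨-(k / m : ℕ), by
    have := congrArg (Nat.cast : ℕ → ℤ⟦X⟧) (Nat.mod_add_div k m)
    rw [Nat.cast_add, Nat.cast_mul] at this
    linear_combination this⟩
end Md

lemma frob (p : ℕ) [NeZero p] [Fact p.Prime] (g : ℤ⟦X⟧) : Md p (E p g) (g ^ p) := by
  rw [Md.iff_coeff]
  intro n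
  rw [← ZMod.intCast_zmod_eq_zero_iff_dvd]
  have h := MvPowerSeries.map_frobenius_expand p (NeZero.ne p)
    (f := PowerSeries.map (Int.castRingHom (ZMod p)) g)
  rw [ZMod.frobenius_zmod, MvPowerSeries.map_id] at h
  have h2 : PowerSeries.map (Int.castRingHom (ZMod p)) (E p g) =
      PowerSeries.map (Int.castRingHom (ZMod p)) (g ^ p) := by
    rw [map_pow]
    exact (map_expand p (NeZero.ne p) _ g).trans h
  have h3 := congrArg (coeff n) h2
  rw [coeff_map, coeff_map] at h3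
  simpa [sub_eq_zero] using h3

lemma md_fix {m : ℕ} {Y : ℤ⟦X⟧} (h : Md m Y (E 2 Y)) (h1 : Cg 1 Y 1) : Md m Y 1 := by
  rw [Md.iff_coeff] at h ⊢
  intro n
  induction n using Nat.strong_induction_on with
  | _ n ih =>
    rcases Nat.eq_zero_or_pos n with rfl | hn
    · rw [Cg.iff_coeff.mp h1 0 (by omega)]; simp
    · have h2 := h n
      rw [coeff_E] at h2
      rw [coeff_one, if_neg hn.ne']
      split_ifs at h2 with h3
      · have h4 := ih (n / 2) (by omega)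
        rw [coeff_one, if_neg (by omega)] at h4
        simpa using h2.add h4
      · exact h2

noncomputable def ev (x : ℤ⟦X⟧) : List ℕ → ℤ⟦X⟧
  | [] => 0
  | a :: l => a + x * ev x l

def force {α : Type} (n : ℕ) (f : ℕ → α) : α := Nat.rec (f 0) (fun k _ => f k.succ) n

lemma force_eq {α : Type} (n : ℕ) (f : ℕ → α) : force n f = f n := by cases n <;> rfl

def axpy (m a : ℕ) : List ℕ → List ℕ → List ℕ
  | [], r => r
  | b :: q, [] => force (a * b % m) fun t => t :: axpy m a q []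
  | b :: q, c :: r => force ((a * b + c) % m) fun t => t :: axpy m a q r

def pmul (m : ℕ) : List ℕ → List ℕ → List ℕ
  | [], _ => []
  | a :: p, q => if a = 0 then 0 :: pmul m p q else axpy m a q (0 :: pmul m p q)

def ppow (m : ℕ) (p : List ℕ) : ℕ → List ℕ
  | 0 => [1]
  | k + 1 => pmul m p (ppow m p k)

def xd : ℕ → List ℕ → List ℕ
  | _, [] => []
  | i, a :: l => i * a :: xd (i + 1) l

def pz (m : ℕ) : List ℕ → Bool
  | [] => true
  | a :: l => (a % m == 0) && pz m l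

variable {m : ℕ} (x : ℤ⟦X⟧)

lemma ev_axpy (a : ℕ) (q r : List ℕ) : Md m (ev x (axpy m a q r)) (a * ev x q + ev x r) := by
  induction q generalizing r with
  | nil => exact Md.of_eq (by simp [axpy, ev])
  | cons b q ih =>
    cases r with
    | nil =>
      rw [axpy, force_eq, ev]
      refine ((Md.natMod _).add ((Md.refl x).mul (ih []))).trans (Md.of_eq ?_)
      simp only [ev]; push_cast; ring
    | cons c r =>
      rw [axpy, force_eq, ev]
      refine ((Md.natMod _).add ((Md.refl x).mul (ih r))).trans (Md.of_eq ?_)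
      simp only [ev]; push_cast; ring

lemma ev_pmul (p q : List ℕ) : Md m (ev x (pmul m p q)) (ev x p * ev x q) := by
  induction p with
  | nil => exact Md.of_eq (by simp [pmul, ev])
  | cons a p ih =>
    rw [pmul]
    split_ifs with h
    · rw [ev, ev, h]
      exact ((Md.refl _).add ((Md.refl x).mul ih)).trans (Md.of_eq (by push_cast; ring))
    · refine (ev_axpy x _ _ _).trans ?_
      rw [ev, ev]
      exact ((Md.refl _).add ((Md.refl _).add ((Md.refl x).mul ih))).trans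
        (Md.of_eq (by push_cast; ring))

lemma ev_ppow (p : List ℕ) (k : ℕ) : Md m (ev x (ppow m p k)) (ev x p ^ k) := by
  induction k with
  | zero => exact Md.of_eq (by simp [ppow, ev])
  | succ k ih => rw [ppow, pow_succ']; exact (ev_pmul x _ _).trans ((Md.refl _).mul ih)

lemma ev_pz {l : List ℕ} (h : pz m l = true) : Md m (ev x l) 0 := by
  induction l with
  | nil => exact Md.refl _
  | cons a l ih =>
    simp only [pz, Bool.and_eq_true, beq_iff_eq] at h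
    have := (Md.natMod (m := m) a).symm
    rw [h.1] at this
    rw [ev]
    simpa using this.add ((Md.refl x).mul (ih h.2))

lemma E_ev (p : ℕ) [NeZero p] (l : List ℕ) : E p (ev x l) = ev (E p x) l := by
  induction l with
  | nil => simp [ev]
  | cons a l ih => simp [ev, ih]

lemma ev_unit {x : ℤ⟦X⟧} (hx : X ∣ x) (l : List ℕ) : IsUnit (ev x (1 :: l)) := by
  rw [ev, Nat.cast_one]; exact isUnit_of_cg (cg_one_add (hx.mul_right _))

noncomputable def Dx (g : ℤ⟦X⟧) : ℤ⟦X⟧ := T g * Ring.inverse WW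

lemma T_eq (g : ℤ⟦X⟧) : T g = WW * Dx g := by
  rw [Dx, mul_left_comm, Ring.mul_inverse_cancel _ (isUnit_of_cg WW_cg), mul_one]

lemma T_ev (l : List ℕ) (i : ℕ) : WW * ev xx (xd i l) = T (ev xx l) + i * WW * ev xx l := by
  induction l generalizing i with
  | nil => simp [xd, ev, T_zero]
  | cons a l ih =>
    rw [xd, ev, ev, T_add, T_mul, T_nat, T_xx]
    have := ih (i + 1)
    push_cast at this ⊢
    linear_combination xx * this

lemma T_pow' (f : ℤ⟦X⟧) (k : ℕ) : T (f ^ k) * f = k * f ^ k * T f := by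
  cases k with
  | zero => simp [T_one]
  | succ k => rw [T_pow]; push_cast; ring

abbrev RF := List ℕ × ℕ

/-- `g = r.1(x) / H(x)^r.2` modulo `m` -/
def Rep (m : ℕ) (H : List ℕ) (g : ℤ⟦X⟧) (r : RF) : Prop := Md m (g * ev xx H ^ r.2) (ev xx r.1)

def rlin (m : ℕ) (H : List ℕ) (a : ℕ) (r s : RF) : RF :=
  if r.2 ≤ s.2 then (axpy m a (pmul m (ppow m H (s.2 - r.2)) r.1) s.1, s.2)
  else (axpy m a r.1 (pmul m (ppow m H (r.2 - s.2)) s.1), r.2)

def rmul (m : ℕ) (r s : RF) : RF := (pmul m r.1 s.1, r.2 + s.2)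

def rD (m : ℕ) (H : List ℕ) (r : RF) : RF :=
  (axpy m ((m - 1) * r.2) (pmul m (xd 0 H) r.1) (pmul m H (xd 0 r.1)), r.2 + 1)

def rT (m : ℕ) (H : List ℕ) (w r : RF) : RF := rmul m w (rD m H r)

def rext (m : ℕ) (d : List ℕ) (r : RF) : RF := (pmul m (ppow m d r.2) r.1, r.2)

def rpow (m : ℕ) (r : RF) (k : ℕ) : RF := (ppow m r.1 k, r.2 * k)

def hor (m : ℕ) (n D : List ℕ) : List ℕ → List ℕ × List ℕ
  | [] => ([], [1])
  | c :: l =>
    match hor m n D l with
    | (acc, pw) => (axpy m c (pmul m D pw) (pmul m n acc), pmul m D pw)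

def rhor (m : ℕ) (H : List ℕ) (r : RF) (l : List ℕ) : RF :=
  ((hor m r.1 (ppow m H r.2) l).1, r.2 * l.length)

def req (m : ℕ) (H : List ℕ) (r s : RF) : Bool := pz m (rlin m H (m - 1) r s).1

noncomputable def val (H : List ℕ) (r : RF) : ℤ⟦X⟧ := ev xx r.1 * Ring.inverse (ev xx H) ^ r.2

namespace Rep
variable {H : List ℕ} {g g' : ℤ⟦X⟧} {r s : RF}

lemma lin (a : ℕ) (h : Rep m H g r) (h' : Rep m H g' s) :
    Rep m H (a * g + g') (rlin m H a r s) := by
  unfold Rep rlin at *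
  split_ifs with hk
  · obtain ⟨j, hj⟩ := Nat.exists_eq_add_of_le hk
    refine Md.trans ?_ (ev_axpy xx _ _ _).symm
    refine Md.trans ?_ (((Md.refl _).mul ((ev_pmul xx _ _).trans
      ((ev_ppow xx _ _).mul h.symm))).add h'.symm).symm
    rw [hj, Nat.add_sub_cancel_left]
    exact Md.of_eq (by ring)
  · obtain ⟨j, hj⟩ := Nat.exists_eq_add_of_le (le_of_not_ge hk)
    refine Md.trans ?_ (ev_axpy xx _ _ _).symm
    refine Md.trans ?_ (((Md.refl _).mul h.symm).add ((ev_pmul xx _ _).trans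
      ((ev_ppow xx _ _).mul h'.symm))).symm
    rw [hj, Nat.add_sub_cancel_left]
    exact Md.of_eq (by ring)

lemma mul (h : Rep m H g r) (h' : Rep m H g' s) : Rep m H (g * g') (rmul m r s) := by
  unfold Rep rmul at *
  exact (Md.of_eq (by ring)).trans ((ev_pmul xx _ _).trans (h.symm.mul h'.symm)).symm

lemma pow (h : Rep m H g r) (k : ℕ) : Rep m H (g ^ k) (rpow m r k) := by
  unfold Rep rpow at *
  exact (Md.of_eq (by ring)).trans ((ev_ppow xx _ _).trans (h.symm.pow k)).symm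

lemma poly (l : List ℕ) : Rep m H (ev xx l) (l, 0) := Md.of_eq (by simp)

lemma var : Rep m H xx ([0, 1], 0) := Md.of_eq (by simp [ev])

lemma one : Rep m H 1 ([1], 0) := Md.of_eq (by simp [ev])

lemma zero : Rep m H 0 ([], 0) := Md.of_eq (by simp [ev])

lemma mono {m' : ℕ} (h : Rep m' H g r) (hm : m ∣ m') : Rep m H g r := Md.mono h hm

lemma of_md (h : Md m g g') (h' : Rep m H g' r) : Rep m H g r := (h.mul (Md.refl _)).trans h'

lemma val (hH : IsUnit (ev xx H)) (r : RF) : Rep m H (val H r) r := by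
  unfold Rep MP_54ec50_nt.val
  rw [mul_assoc, ← mul_pow, Ring.inverse_mul_cancel _ hH, one_pow, mul_one]
  exact Md.refl _

lemma ext (d : List ℕ) (h : Rep m H g r) : Rep m (pmul m H d) g (rext m d r) := by
  unfold Rep rext at *
  refine ((Md.refl g).mul ((ev_pmul xx _ _).pow _)).trans ?_
  exact (Md.of_eq (by ring)).trans ((ev_pmul xx _ _).trans ((ev_ppow xx _ _).mul h.symm)).symm

lemma neg_one (hm : 0 < m) (a : ℤ⟦X⟧) : Md m (((m - 1 : ℕ) : ℤ⟦X⟧) * a) (-a) :=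
  ⟨a, by rw [Nat.cast_sub hm]; push_cast; ring⟩

lemma eq (hm : 0 < m) (hH : IsUnit (ev xx H)) (h : Rep m H g r) (h' : Rep m H g' s)
    (hc : req m H r s = true) : Md m g g' := by
  have h1 := (h.lin (m - 1) h').trans (ev_pz xx hc)
  rw [← zero_mul (ev xx H ^ (rlin m H (m - 1) r s).2)] at h1
  have h2 := ((neg_one hm g).add (Md.refl g')).symm.trans (h1.cancel (hH.pow _))
  apply Md.symm
  unfold Md at *
  rwa [show g' - g = -g + g' - 0 by ring]

lemma D (hm : 0 < m) (h : Rep m H g r) : Rep m H (Dx g) (rD m H r) := by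
  unfold Rep rD at *
  refine Md.trans ?_ (ev_axpy xx _ _ _).symm
  refine Md.trans ?_ (((Md.refl _).mul ((ev_pmul xx _ _).trans ((Md.refl _).mul h.symm))).add
    (ev_pmul xx _ _)).symm
  rw [Nat.cast_mul, mul_assoc]
  refine Md.trans ?_ ((neg_one hm _).add (Md.refl _)).symm
  apply Md.cancel (c := WW) _ (isUnit_of_cg WW_cg)
  have h1 := h.T.mul (Md.refl (ev xx H))
  have e1 := T_ev r.1 0
  have e2 := T_ev H 0
  have e3 := T_pow' (ev xx H) r.2
  have e4 := T_eq g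
  rw [T_mul] at h1
  obtain ⟨z, hz⟩ := h1
  refine ⟨z, ?_⟩
  push_cast at e1 e2
  linear_combination hz - ev xx H * e1 - g * e3 + r.2 * g * ev xx H ^ r.2 * e2 -
    ev xx H ^ (r.2 + 1) * e4

lemma T {w : RF} (h : Rep m H g r) (hm : 0 < m) (hw : Rep m H WW w) :
    Rep m H (T g) (rT m H w r) := by
  rw [T_eq]; exact hw.mul (h.D hm)

lemma hor (h : Rep m H g r) (l : List ℕ) : Rep m H (ev g l) (rhor m H r l) := by
  have key : Md m (ev g l * ev xx H ^ (r.2 * l.length))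
      (ev xx (MP_54ec50_nt.hor m r.1 (ppow m H r.2) l).1) ∧
      Md m (ev xx H ^ (r.2 * l.length)) (ev xx (MP_54ec50_nt.hor m r.1 (ppow m H r.2) l).2) := by
    induction l with
    | nil => exact ⟨Md.of_eq (by simp [ev, MP_54ec50_nt.hor]),
        Md.of_eq (by simp [ev, MP_54ec50_nt.hor])⟩
    | cons c l ih =>
      rw [MP_54ec50_nt.hor]
      have a1 := (ev_pmul xx _ _).trans ((ev_ppow (m := m) xx H r.2).mul ih.2.symm)
      have a2 := (ev_pmul xx _ _).trans ((Md.symm h).mul ih.1.symm)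
      refine ⟨?_, (Md.of_eq ?_).trans a1.symm⟩
      · refine (Md.of_eq ?_).trans ((ev_axpy xx _ _ _).trans (((Md.refl _).mul a1).add a2)).symm
        rw [ev, List.length_cons]; ring
      · rw [List.length_cons]; ring
  exact key.1

/-- comparison with `E 2` of a rational function -/
lemma eqE {h : List ℕ} {b : ℤ⟦X⟧} {rv rb t : RF} (hm : 0 < m) (hH : IsUnit (ev xx H))
    (hh : IsUnit (ev xx h)) (hv : Rep m H vv rv) (hg : Rep m H g r) (hb : Rep m H b rb)
    (hc : req m H (rmul m (rpow m (rhor m H rv h) t.2) r) (rmul m rb (rhor m H rv t.1)) = true) :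
    Md m g (b * E 2 (MP_54ec50_nt.val h t)) := by
  have h1 := eq hm hH (((hv.hor h).pow t.2).mul hg) (hb.mul (hv.hor t.1)) hc
  have h2 : E 2 (MP_54ec50_nt.val h t * ev xx h ^ t.2) = E 2 (ev xx t.1) := by
    unfold MP_54ec50_nt.val
    rw [mul_assoc, ← mul_pow, Ring.inverse_mul_cancel _ hh, one_pow, mul_one]
  rw [map_mul, map_pow, E_ev, E_ev, ← vv] at h2
  have hu : IsUnit (ev vv h) := by rw [vv, ← E_ev]; exact hh.map _
  apply Md.cancel (c := ev vv h ^ t.2) _ (hu.pow _)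
  rw [mul_assoc, h2, mul_comm g]
  exact h1

end Rep

end Pool.Agent.MP_54ec50_nt

end

-- part MP_54ec50_nt.Mod3
section

/-! The congruences modulo 3. -/

namespace Pool.Agent.MP_54ec50_nt

open PowerSeries Finset

noncomputable def CC : ℤ⟦X⟧ := RR ^ 5 * Ring.inverse R5
noncomputable def DD : ℤ⟦X⟧ := R5 * Ring.inverse (RR ^ 5)

def Nl : List ℕ := [1, 46, 4, 45, 1]
def Dl : List ℕ := [1, 3, 4, 2, 1]

lemma ev_Nl : Md 48 (ev xx Nl) (Nn xx) :=
  ⟨xx + xx ^ 3, by simp only [ev, Nl, Nn]; push_cast; ring⟩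

lemma ev_Dl : ev xx Dl = Dn xx := by simp only [ev, Dl, Dn]; push_cast; ring

lemma CC_md : Md 48 (CC * ev xx Dl) (ev xx Nl) := by
  refine (Md.of_eq ?_).trans ev_Nl.symm
  have h := Ring.inverse_mul_cancel _ R5_unit
  rw [ev_Dl, CC]
  linear_combination Ring.inverse R5 * ramanujan + Nn xx * h

lemma DD_md : Md 48 (DD * ev xx Nl) (ev xx Dl) := by
  refine ((Md.refl _).mul ev_Nl).trans (Md.of_eq ?_)
  have h := Ring.inverse_mul_cancel _ ((isUnit_of_cg RR_cg).pow 5)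
  rw [ev_Dl, DD]
  linear_combination (-Ring.inverse (RR ^ 5)) * ramanujan + Dn xx * h

lemma rep_frac {m : ℕ} {G : ℤ⟦X⟧} {nn dd : List ℕ} (H : List ℕ)
    (h : Md m (G * ev xx dd) (ev xx nn)) : Rep m (pmul m H dd) G (pmul m H nn, 1) := by
  unfold Rep
  rw [pow_one]
  refine ((Md.refl G).mul (ev_pmul xx _ _)).trans ?_
  exact (Md.of_eq (by ring)).trans ((ev_pmul xx _ _).trans ((Md.refl _).mul h.symm)).symm

noncomputable def al : ℤ⟦X⟧ := 1 + xx * vv ^ 2 - (xx * vv ^ 2) ^ 2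
noncomputable def be : ℤ⟦X⟧ := 1 - 4 * (xx * vv ^ 2) - (xx * vv ^ 2) ^ 2

lemma al_unit : IsUnit al := by
  have : al = 1 + xx * (vv ^ 2 - xx * vv ^ 4) := by unfold al; ring
  rw [this]; exact isUnit_of_cg (cg_one_add (X_dvd_xx.mul_right _))

lemma Y_eq {Wt : ℤ⟦X⟧} (h : Cg 1 Wt 1) :
    ∃ Y, Cg 1 Y 1 ∧ WW = Y * Wt ∧ Y * (Wt * al) = E 2 Y * (be * E 2 Wt) := by
  have e : WW = WW * Ring.inverse Wt * Wt := by
    rw [mul_assoc, Ring.inverse_mul_cancel _ (isUnit_of_cg h), mul_one]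
  refine ⟨_, by simpa using WW_cg.mul (inv_cg h), e, ?_⟩
  have e2 := congrArg (E 2) e
  rw [map_mul] at e2
  have := WW_eq
  rw [← al, ← be] at this
  linear_combination this - al * e + be * e2

lemma W_fix {m : ℕ} {Wt : ℤ⟦X⟧} (h : Cg 1 Wt 1) (h2 : Md m (Wt * al) (be * E 2 Wt)) :
    Md m WW Wt := by
  obtain ⟨Y, h3, h4, h5⟩ := Y_eq h
  have h6 : Md m Y (E 2 Y) :=
    ((Md.of_eq h5).trans ((Md.refl _).mul h2.symm)).cancel ((isUnit_of_cg h).mul al_unit)
  rw [h4]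
  simpa using (md_fix h6 h3).mul (Md.refl Wt)

lemma ev_cg {x : ℤ⟦X⟧} (hx : X ∣ x) (l : List ℕ) : Cg 1 (ev x (1 :: l)) 1 := by
  rw [ev, Nat.cast_one]; exact cg_one_add (hx.mul_right _)

lemma val_cg (l l' : List ℕ) (k : ℕ) : Cg 1 (val (1 :: l) (1 :: l', k)) 1 := by
  have h : Cg 1 (Ring.inverse (ev xx (1 :: l)) ^ k) 1 := by
    induction k with
    | zero => simpa using Cg.refl _
    | succ k ih => rw [pow_succ]; simpa using ih.mul (inv_cg (ev_cg X_dvd_xx l))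
  simpa [val] using (ev_cg X_dvd_xx l').mul h

def h3 : List ℕ := [1, 0, 0, 0, 0, 0, 0, 0, 0, 0, 1]
def w3 : RF := ([1, 0, 0, 0, 0, 1, 0, 0, 0, 0, 2], 1)

lemma h3_unit : IsUnit (ev xx h3) := ev_unit X_dvd_xx _

lemma rep_W3 : Rep 3 h3 WW w3 := by
  refine Rep.of_md (W_fix (val_cg _ _ _) ?_) (Rep.val h3_unit _)
  have e1 : val h3 w3 * ev xx h3 = ev xx w3.1 := by
    simp only [val, w3, pow_one]
    rw [mul_assoc, Ring.inverse_mul_cancel _ h3_unit, mul_one]
  have e2 := congrArg (E 2) e1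
  rw [map_mul, E_ev, E_ev, ← vv] at e2
  apply Md.cancel (c := ev xx h3 * ev vv h3) _ (h3_unit.mul (ev_unit X_dvd_vv _))
  have e3 : val h3 w3 * al * (ev xx h3 * ev vv h3) = ev xx w3.1 * ev vv h3 * al := by
    rw [← e1]; ring
  have e4 : be * E 2 (val h3 w3) * (ev xx h3 * ev vv h3) = ev vv w3.1 * ev xx h3 * be := by
    rw [← e2]; ring
  change Md 3 (val h3 w3 * al * _) (be * E 2 (val h3 w3) * _)
  rw [e3, e4]
  have h := Phi
  simp only [ev, h3, w3, al, be]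
  generalize xx = u at h ⊢
  generalize vv = v at h ⊢
  refine ⟨(4 * u ^ 5 + u ^ 10) * (1 + v ^ 10) * (1 + u * v ^ 2 - (u * v ^ 2) ^ 2) -
    (4 * v ^ 5 + v ^ 10) * (1 + u ^ 10) * (1 - 4 * (u * v ^ 2) - (u * v ^ 2) ^ 2) +
    (4*v^5 + v^10 + 2*u*v^2 - 15*u*v^7 - u*v^12 - u^2*v^4 - 4*u^2*v^9 - u^2*v^14 - u^3*v^11 -
      4*u^5 - 3*u^5*v^10 - 4*u^6*v^2 - 4*u^6*v^12 + 3*u^7*v^4 + 4*u^7*v^14 - u^9*v^3 - u^10 +
      4*u^10*v^5 - u^10*v^10 + u^11*v^2 - 15*u^11*v^7 - 2*u^11*v^12 + u^12*v^4 -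
      4*u^12*v^9), ?_⟩
  push_cast
  linear_combination (v^4 + v^9 + u*v + u*v^11 - u^2*v^3 + u^3 - u^3*v^10 + u^4*v^2 + u^5*v^9 +
    u^6*v - u^6*v^11 + u^7*v^8 + u^8 + u^8*v^10 - u^9*v^2 + u^9*v^7) * h

def chk3 (H : List ℕ) (w r r1 : RF) : Bool :=
  req 3 H (rlin 3 H 1 (rT 3 H w (rT 3 H w r)) (rpow 3 r1 3)) r

lemma U3 {H : List ℕ} {w r r1 : RF} {G G1 : ℤ⟦X⟧} (hH : IsUnit (ev xx H)) (hw : Rep 3 H WW w)
    (hG : Rep 3 H G r) (h1 : Rep 3 H G1 r1) (hc : chk3 H w r r1 = true) (n : ℕ) :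
    (3 : ℤ) ∣ coeff (3 * n) G - coeff n G1 := by
  have h2 := Rep.eq (by norm_num) hH
    (((hG.T (by norm_num) hw).T (by norm_num) hw).lin 1 (h1.pow 3)) hG hc
  have h3 := Md.iff_coeff.mp (((Md.refl _).add (frob 3 G1)).trans h2) (3 * n)
  rw [map_add, coeff_nat_mul, coeff_T, coeff_T, coeff_E_mul] at h3
  obtain ⟨z, hz⟩ := h3
  push_cast at hz
  exact ⟨3 * n ^ 2 * coeff (3 * n) G - z, by linear_combination -hz⟩

lemma chain3 {G : ℤ⟦X⟧} (nn dd : List ℕ) (r1 r2 : RF) (hG : Md 3 (G * ev xx dd) (ev xx nn))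
    (l : List ℕ) (hl : pmul 3 h3 dd = 1 :: l)
    (c1 : chk3 (pmul 3 h3 dd) (rext 3 dd w3) (pmul 3 h3 nn, 1) (rext 3 dd r1) = true)
    (c2 : chk3 h3 w3 r1 r2 = true)
    (c3 : req 3 h3 (rT 3 h3 w3 (rlin 3 h3 2 r2 (rT 3 h3 w3 r2))) ([], 0) = true) (n : ℕ) :
    (3 : ℤ) ∣ coeff (27 * n + 18) G := by
  have a1 := U3 (hl ▸ ev_unit X_dvd_xx l) (rep_W3.ext dd) (rep_frac h3 hG)
    ((Rep.val h3_unit r1).ext dd) c1 (3 * (3 * n + 2))
  have a2 := U3 h3_unit rep_W3 (Rep.val h3_unit r1) (Rep.val h3_unit r2) c2 (3 * n + 2)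
  have a3 := Md.iff_coeff.mp (Rep.eq (by norm_num) h3_unit
    (((Rep.val h3_unit r2).lin 2 ((Rep.val h3_unit r2).T (by norm_num) rep_W3)).T
      (by norm_num) rep_W3) Rep.zero c3) (3 * n + 2)
  rw [coeff_T, map_add, coeff_nat_mul, coeff_T, map_zero] at a3
  rw [show 27 * n + 18 = 3 * (3 * (3 * n + 2)) by ring]
  obtain ⟨z, hz⟩ := a3
  push_cast at hz
  have a4 : (3 : ℤ) ∣ coeff (3 * n + 2) (val h3 r2) :=
    ⟨(3 * n ^ 2 + 6 * n + 3) * coeff (3 * n + 2) (val h3 r2) - z, by linear_combination -hz⟩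
  simpa using (a1.add a2).add a4

theorem CC_mod3 (n : ℕ) : (3 : ℤ) ∣ coeff (27 * n + 18) CC :=
  chain3 Nl Dl ([1, 0, 1, 0, 2, 0, 0, 2, 1, 1, 1], 1) ([1, 0, 0, 2, 0, 0, 2, 0, 0, 2, 1], 1)
    (CC_md.mono (by norm_num)) (pmul 3 h3 Dl).tail (by decide +kernel) (by decide +kernel)
    (by decide +kernel) (by decide +kernel) n

theorem DD_mod3 (n : ℕ) : (3 : ℤ) ∣ coeff (27 * n + 18) DD :=
  chain3 Dl Nl ([1, 2, 1, 1, 0, 0, 2, 0, 1, 0, 1], 1) ([1, 1, 0, 0, 2, 0, 0, 1, 0, 0, 1], 1)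
    (DD_md.mono (by norm_num)) (pmul 3 h3 Nl).tail (by decide +kernel) (by decide +kernel)
    (by decide +kernel) (by decide +kernel) n

end Pool.Agent.MP_54ec50_nt

end
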